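import Pool.Agent.Q307.Slal.Main

/-!
# Many values of slalom numbers for one ideal

Glue a copy of the ideal `J_i` on the `i`-th set of an almost disjoint family of size continuum and
restrict `h_i` to this set (with the value `0` outside): the numbers `sl_e` and their duals do not
change. Hence one ideal has all the values which occur for continuum many ideals.
-/

set_option autoImplicit false

namespace Pool.Agent.Results.MP_8b2a7f_lc.OneIdeal

open Pool.Agent.Q307.Slal Cardinal

/-- Let `Occur` be the set of the cardinals `sl_e(h, J)` and `sl_e^⊥(h, J)` for all `h` and all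
ideals `J`, and of `sl_t(h, J)` and `sl_t^⊥(h, J)` for all maximal ideals `J`. For every nonempty set
`K` of at most continuum many cardinals from `Occur` there is one ideal `J` such that all elements
of `K` are in `V_J`; if `Occur` has at least continuum many elements, then there is an ideal `J` with
`|V_J| = 𝔠`. -/
theorem result :
    (∀ K : Set Cardinal.{0}, K ⊆ Occur → K.Nonempty → #K ≤ 𝔠 → ∃ J, IsIdeal J ∧ K ⊆ V J) ∧
    (𝔠 ≤ #Occur → ∃ J, IsIdeal J ∧ #(V J) = 𝔠) :=
  ⟨exists_ideal, main⟩

end Pool.Agent.Results.MP_8b2a7f_lc.OneIdeal
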